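import Pool.Agent.J6H56.GA.Main

/-!
# The census argument is optimal, even for interactive proofs, although `ESPACE` is nearly in `E`

By the census argument, which holds relative to every oracle, every language in `coNE` is in `NE`
with advice: the advice for the inputs of length `n` is the number of the strings of length `n` in
the complement, one of `2 ^ n + 1` numbers. We show that one cannot do with one advice string less:
relative to generic oracles there is a language `L` in `NE` such that, for any choice of `2 ^ n`
advice strings for the inputs of length `n`, the complement of `L` is not in `NE` with this advice,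
and it has no interactive proofs with verifiers in time `2 ^ O(n)` with this advice. The oracles may
contain any information about anything, in particular information which makes it possible to decide
all the problems in `ESPACE` in time `2 ^ O(n * β n)`, for an arbitrarily slow unbounded function
`β`.

The proof: we add to the oracle one witness for each of the strings of length `n`, one after the
other. If an advice string is right before and after the addition of some of the witnesses, then a
proof for the last one of these strings which is still in the complement of `L` does not notice
that this is no longer true. Hence each of the `2 ^ n + 1` oracles needs an advice string of its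
own.
-/

set_option autoImplicit false

namespace Pool.Agent.Results.MP_64fb07_lc.CensusOptimal

open Filter Pool.Agent.NPC Pool.Agent.H620R2.Gauge Pool.Agent.H591R3.PHG
open Pool.Agent.TH678.GC (join)
open Pool.Agent.J6H49.EE (padE LinExp InExpTime)
open Pool.Agent.J6H49.AM (pr)
open Pool.Agent.J6H49.IP (Accepts)

/-- The class `C` does not contain the language `K` with the advice strings `W`: for every language
`S` in `C`, for infinitely many `n`, no string `w` in `W n` is right for the inputs of length `n`,
i.e. there is `x` of length `n` such that `⟨x, w⟩ ∈ S` is not equivalent to `x ∈ K`. -/
def NotWithAdvice (W : ℕ → Finset (List Bool)) (C : Set (List Bool) → Prop)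
    (K : Set (List Bool)) : Prop :=
  ∀ S : Set (List Bool), C S → ∃ᶠ n in atTop, ∀ w ∈ W n, ∃ x : List Bool, x.length = n ∧
    ¬ (pairBits x w ∈ S ↔ x ∈ K)

/-- The verifier `V` is correct for the statement `b`, on the input `z`, with `ℓ` rounds, `ℓ` private
random bits and answers of length at most `ℓ`: if `b` is true, then some prover makes it accept
with probability at least `2 / 3`; if `b` is false, then every prover makes it accept with
probability at most `1 / 3`. -/
def CorrectFor (V : List Bool → List Bool) (ℓ : ℕ) (z : List Bool) (b : Prop) : Prop :=
  (b → ∃ P : List (List Bool) → List Bool, 2 / 3 ≤ pr ℓ fun r => Accepts V P ℓ z r) ∧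
  (¬ b → ∀ P : List (List Bool) → List Bool, (pr ℓ fun r => Accepts V P ℓ z r) ≤ 1 / 3)

/-- There are no interactive proofs for the language `K` with the advice strings `W` and with
verifiers which work in time `2 ^ O(n)` relative to the oracle `O`: for every polynomial-time
verifier `V` which gets the input `⟨x, w⟩`, padded with `2 ^ (c * (|⟨x, w⟩| + 1))` ones, for
infinitely many `n`, no string `w` in `W n` is right for the inputs of length `n`. -/
def NoProofsWithAdvice (W : ℕ → Finset (List Bool)) (O : Oracle) (K : Set (List Bool)) : Prop :=
  ∀ (V : List Bool → List Bool) (p : Polynomial ℕ) (c : ℕ), IsFP O V →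
    ∃ᶠ n in atTop, ∀ w ∈ W n, ∃ x : List Bool, x.length = n ∧
      ¬ CorrectFor V (p.eval (padE c (pairBits x w)).length) (padE c (pairBits x w)) (x ∈ K)

/-- Let `β : ℕ → ℕ` be nondecreasing and unbounded. There is a map `E` on the oracles such that

* for every oracle `B`, relative to the join of `B` and `E B` all the problems in linear-exponential
  space are decided in time `2 ^ O(n * (β n + 1))`;
* for every oracle `E₀` and all sets `W n` of at most `2 ^ n` strings of length at most `n`, for all
  oracles `A` in a comeager set, if `B` is the join of `A` and `E₀`, then relative to the join `O` of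
  `B` and `E B` there is a language `L` in `NE` such that the complement of `L` is not in `NE` with
  the advice strings `W`, and it has no interactive proofs with verifiers in time `2 ^ O(n)` with the
  advice strings `W`. -/
theorem result (β : ℕ → ℕ) (hβ : Monotone β) (hβ' : Tendsto β atTop atTop) :
    ∃ E : Oracle → Oracle,
      (∀ B : Oracle, ∀ L, LinExp (IsPSPACE (join B (E B))) L → InExpTime β (join B (E B)) L) ∧
      ∀ (E₀ : Oracle) (W : ℕ → Finset (List Bool)), (∀ n, (W n).card ≤ 2 ^ n) →
        (∀ n, ∀ w ∈ W n, w.length ≤ n) →
        ∀ᶠ A in residual Oracle, ∃ L : Set (List Bool),
          LinExp (IsSig (join (join A E₀) (E (join A E₀))) 1) L ∧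
          NotWithAdvice W (LinExp (IsSig (join (join A E₀) (E (join A E₀))) 1)) Lᶜ ∧
          NoProofsWithAdvice W (join (join A E₀) (E (join A E₀))) Lᶜ := by
  obtain ⟨E, h1, h2⟩ := Pool.Agent.J6H56.GA.main β hβ hβ'
  refine ⟨E, h1, fun E₀ W hW hW2 => ?_⟩
  filter_upwards [(h2 E₀).1 W hW hW2] with A hA
  obtain ⟨L, hL, h3, h4⟩ := hA
  exact ⟨L, hL, h3, h4⟩

end Pool.Agent.Results.MP_64fb07_lc.CensusOptimal
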