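import Pool.Agent.J6H49.KX.Main

/-!
# `NE = coNE`, but `E ≠ NE` and `NP` is far from `coNP`

We show that for relativizing proofs the equality `NE = coNE` (and even the equality of space and unambiguous
nondeterministic time for all superpolynomial bounds) implies neither `E = NE` nor anything for the question
whether `NP` is closed under complement, even if all these classes are nearly equal to the
deterministic time classes.
-/

set_option autoImplicit false

namespace Pool.Agent.Results.MP_64fb07_lc.ClosedUnderComplement

open MeasureTheory Filter Pool.Agent.NPC Pool.Agent.H628R3.RO Pool.Agent.J6H49.OP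
open Pool.Agent.J6H49.IP
open Pool.Agent.TH678.GC (join)
open Pool.Agent.J6H49.ES (Superpoly InTimePow)
open Pool.Agent.J6H49.KX (InUTimePow NN)

/-- Let `α` be nondecreasing and unbounded, let `t` be superpolynomial and let `C` be any oracle. There
is a map `O` on the oracles such that for every oracle `A` the oracle `O A` contains `A` and `C`, it is
nearly collapsed with the function `α`, and relative to `O A`

* for every function `N` with `N n ≥ n + 2` for all `n` and `N n ≥ t n` for all large `n`, every
  language in space `N(n) ^ O(1)` and its complement are in unambiguous nondeterministic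
  time `N(n) ^ O(1)` (for `N n = 2 ^ (n + 1)`, if `t` is smaller: `NE = coNE = UE = ESPACE`),
* some language in space `N(n) ^ O(1)` is not in deterministic time `N(n) ^ O(1)`, for
  `N n = NN false n = 2 ^ (n + 1)` and for `N n = NN true n = 2 ^ (2 ^ (n + 1))`,

and for a random oracle `A` (fair coin tosses) with probability one there is a language `L` in `coNP`
relative to `O A` such that for no set `T` of subexponential density there is an interactive proof
for `L`, relative to `O A` and `T`, which is correct for all inputs of length `n`, for infinitely
many `n`. -/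
theorem result (α : ℕ → ℕ) (hα : Monotone α) (hα' : Tendsto α atTop atTop) (t : ℕ → ℕ)
    (ht : Superpoly t) (C : Oracle) : ∃ O : Oracle → Oracle,
      (∀ A, NearlyCollapsed α (O A) ∧ Contains (O A) A ∧ Contains (O A) C ∧
        (∀ N : ℕ → ℕ, (∀ n, n + 2 ≤ N n) → (∀ᶠ n in atTop, t n ≤ N n) →
          ∀ L, InSpace N (O A) L → InUTimePow N (O A) L ∧ InUTimePow N (O A) Lᶜ) ∧
        ∀ s, ∃ L, InSpace (NN s) (O A) L ∧ ¬ InTimePow (NN s) (O A) L) ∧
      ∀ᵐ A ∂randomOracle, ∃ L : Set (List Bool), IsCoNP (O A) L ∧
        ∀ T : Oracle, SubexpDense T → ¬ IsIPio (join (O A) T) L :=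
  Pool.Agent.J6H49.KX.main α hα hα' t ht C

end Pool.Agent.Results.MP_64fb07_lc.ClosedUnderComplement
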