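import Pool.Agent.J6H31.AW.Final

/-!
# `coNE` is hard on average for `NE` and for interactive proofs with `n / 2 - O(log n)` bits of
advice, although `ESPACE` is nearly in `E`

`E`, `NE`, `ESPACE` are the classes of the languages decided in deterministic time, nondeterministic
time and space `2 ^ O(n)`. Relative to almost all oracles of a certain kind, which contain
information which makes it possible to decide all the problems in `ESPACE` in time
`2 ^ O(n * β n)`, for an arbitrarily slow unbounded function `β`, there is a language `L` in `NE`
such that no nondeterministic machine with running time `2 ^ O(n)`, and even no interactive proof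
with a verifier with running time `2 ^ O(n)` (with private coins and `2 ^ O(n)` rounds), is correct
for the complement of `L` on essentially more than one half of the strings of length `n`, for any
large `n`, even with an arbitrary advice string `w` (which depends on `n`): the number of the
strings of length `n` for which it is correct is at most

`2 ^ n / 2 + (n + 1) ^ 2 * sqrt (2 ^ |w| * 2 ^ n * sqrt (2 ^ n))`,

that is `(1 / 2 + o(1)) * 2 ^ n` if `|w| ≤ n / 2 - 5 log n`. The number of the nondeterministic bits
of `L` can be any function `μ` with `ω(n) ≤ μ n ≤ 2 ^ (n + 1)`.

The proof: a string `x` is in `L` if one of certain blocks of `μ n` random bits consists of ones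
only. The value of the game with verifier `V` at `x` is a function of the rows of the blocks which
hardly decreases if a row without such a block is replaced by a random row (the verifier does not
find the block). Hence the sum of its influences is at most about `sqrt (2 ^ n)`, and the second
moment of the sum of the correlations of these functions with the negated bits of `L` is at most
about `2 ^ n * sqrt (2 ^ n)`.
-/

set_option autoImplicit false

namespace Pool.Agent.Results.MP_64fb07_lc.CoNEAverageInteractive

open Pool.Agent.NPC Pool.Agent.H620R2.Gauge Pool.Agent.H591R3.PHG MeasureTheory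
open Pool.Agent.J6H7.RO (randomOracle)
open Pool.Agent.J6H49.BI (fair)
open Pool.Agent.J6H49.EE (padE LinExp InExpTime)
open Pool.Agent.TH678.GC (join)
open Pool.Agent.J6H49.AM (pr)
open Pool.Agent.J6H49.IP (Accepts)

/-- one half of the strings of length `n`, and a small excess which depends on the length `a` of
the advice -/
noncomputable def bound (n a : ℕ) : ℝ :=
  2 ^ n / 2 + (n + 1) ^ 2 * Real.sqrt (2 ^ a * (2 ^ n * Real.sqrt (2 ^ n)))

/-- The number of the strings `x` of length `n` for which the language `S` with the advice `w` is
correct for the complement of `L`. -/
noncomputable def agreement (S L : Set (List Bool)) (n : ℕ) (w : List Bool) : ℕ :=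
  Set.ncard {x : List Bool | x.length = n ∧ (pairBits x w ∈ S ↔ x ∉ L)}

/-- The verifier `V`, with `ℓ` rounds, private random strings of length `ℓ` and answers of length at
most `ℓ`, is correct for the complement of `L` at `x`, with the advice `w`: if `x` is not in `L`,
then some prover makes it accept `⟨x, w⟩` with probability at least `2 / 3`; if `x` is in `L`, then
every prover makes it accept `⟨x, w⟩` with probability at most `1 / 3`. -/
def CorrectAt (V : List Bool → List Bool) (ℓ : ℕ) (w : List Bool) (L : Set (List Bool))
    (x : List Bool) : Prop :=
  (x ∉ L → ∃ P : List (List Bool) → List Bool,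
    2 / 3 ≤ pr ℓ fun r => Accepts V P ℓ (pairBits x w) r) ∧
  (x ∈ L → ∀ P : List (List Bool) → List Bool,
    (pr ℓ fun r => Accepts V P ℓ (pairBits x w) r) ≤ 1 / 3)

/-- The number of the strings `x` of length `n` for which the verifier is correct. -/
noncomputable def correct (V : List Bool → List Bool) (ℓ : ℕ) (L : Set (List Bool)) (n : ℕ)
    (w : List Bool) : ℕ :=
  Set.ncard {x : List Bool | x.length = n ∧ CorrectAt V ℓ w L x}

/-- Let `β : ℕ → ℕ` be nondecreasing and unbounded, and let `μ : ℕ → ℕ` be a function with
`μ n ≤ 2 ^ (n + 1)`. There are an oracle `T` and a map `E` on the oracles such that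

* for every oracle `B`, relative to the join of `B` and `E B` all the problems in linear-exponential
  space are decided in time `2 ^ O(n * (β n + 1))`;
* for every oracle `E₀`, for almost every oracle `A` (for the fair random oracle), if `B` is the
  join of `A`, `E₀` and `T`, then relative to the join `O` of `B` and `E B` there is a language `L`
  in `NE`, decided with `μ n` guessed bits for the inputs of length `n`, such that for all large `n`
  with `C * n ≤ μ n` (where `C` depends on the machine) and for all advice strings `w`,
  + every `S` in `NE` with the advice `w` is correct for the complement of `L` on at most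
    `bound n |w|` strings of length `n`;
  + every verifier `V` with running time `2 ^ O(n)`, with `2 ^ (c * (n + 1))` rounds and private
    coins, with the advice `w`, is correct for the complement of `L` on at most `bound n |w|`
    strings of length `n`. -/
theorem result (β : ℕ → ℕ) (hβ : Monotone β) (hβ' : Filter.Tendsto β Filter.atTop Filter.atTop)
    (μ : ℕ → ℕ) (hμ : ∀ n, μ n ≤ 2 ^ (n + 1)) :
    ∃ (T : Oracle) (E : Oracle → Oracle),
      (∀ B : Oracle, ∀ L, LinExp (IsPSPACE (join B (E B))) L → InExpTime β (join B (E B)) L) ∧
      ∀ E₀ : Oracle, ∀ᵐ A ∂(randomOracle fun _ => fair), ∀ O : Oracle,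
        O = join (join (join A E₀) T) (E (join (join A E₀) T)) →
        ∃ L : Set (List Bool), LinExp (IsSig O 1) L ∧
          (∃ V : List Bool → List Bool, IsFP O V ∧ ∀ x, x ∈ L ↔
            ∃ y : List Bool, y.length = μ x.length ∧ V (pairBits y (padE 1 x)) = [true]) ∧
          (∀ S : Set (List Bool), LinExp (IsSig O 1) S → ∃ C : ℕ, ∀ n ≥ C, C * n ≤ μ n →
            ∀ w : List Bool, (agreement S L n w : ℝ) ≤ bound n w.length) ∧
          (∀ V : List Bool → List Bool, IsFP O V → ∀ c : ℕ, ∃ C : ℕ, ∀ n ≥ C, C * n ≤ μ n →
            ∀ w : List Bool,
              (correct V (2 ^ (c * (n + 1))) L n w : ℝ) ≤ bound n w.length) :=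
  Pool.Agent.J6H31.AW.main β hβ hβ' μ hμ

end Pool.Agent.Results.MP_64fb07_lc.CoNEAverageInteractive
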