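import Pool.Agent.J6H20.IM.Main

/-!
# `NE` and `coNE` are immune against each other although `ESPACE` is nearly `E`

For an arbitrarily slowly growing unbounded function `α` there is a map `O` on oracles such that
every `O A` contains `A` and is nearly collapsed: relative to `O A` all problems in polynomial space
are decided in deterministic time `n ^ O(α n)`, all problems in space `2 ^ O(n)` in time
`2 ^ O(n * α n)`, all problems in space `2 ^ O(2 ^ n)` in time `2 ^ O(2 ^ n * α n)`. Nevertheless,
for a random oracle `A`, almost surely, relative to `O A` some infinite tally set `L` in `coNE` has no
infinite subset in `NE`, and not even one with interactive proofs of length `2 ^ O(n)`, and some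
infinite tally set `M` in `NE` has no infinite subset in `coNE`, and not even one whose complement
has such interactive proofs. Moreover `L` and `M` are disjoint, and their union is in `P`.

Idea of the proof. The set `M` asks, for `x = 0 ^ n` with `n` in a tower, whether some block `y` of
length `N = 2 ^ (n + 1)` is continued by the block of `N` ones in the oracle behind the root `0 ^ N`.
If the verifier accepts, for some prover, although there is no such `y`, then one `y` put at a random
place changes few of the conversations; hence the probability that there is no `y` and the verifier
accepts is at most twice the probability that there is one and the verifier does not reject.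
Conversely, raising the blocks independently, the probability that there is one and the verifier
rejects is at most three times the probability that there is none and the verifier does not accept,
up to a small error. A conditional Borel-Cantelli argument along the tower completes the proof.
-/

set_option autoImplicit false

namespace Pool.Agent.Results.MP_64fb07_lc.ImmuneNE

open Pool.Agent.NPC Pool.Agent.H628R3.RO Pool.Agent.J6H49.OP Pool.Agent.J6H49.IP
open Pool.Agent.J6H49.ES (InNTimePow)
open Pool.Agent.J6H20.IM

/-- Let `α : ℕ → ℕ` be nondecreasing and unbounded and let `C` be any oracle. There is a map `O` on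
oracles such that `O A` contains `A` and `C` and is nearly collapsed with the function `α`, for all
`A`, and such that for almost all `A` there are disjoint sets `L` and `M` of strings of zeros, whose
union is in `P` relative to `O A`, such that `L` is in `coNE` and immune for `NE` and for the
languages with interactive proofs of length `2 ^ O(n)`, and `M` is in `NE` and immune for `coNE` and
for the complements of the languages with interactive proofs of length `2 ^ O(n)`, all relative to
`O A`. -/
theorem result (α : ℕ → ℕ) (hα : Monotone α) (hα' : Filter.Tendsto α Filter.atTop Filter.atTop)
    (C : Oracle) : ∃ O : Oracle → Oracle,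
      (∀ A, NearlyCollapsed α (O A) ∧ Contains (O A) A ∧ Contains (O A) C) ∧
      ∀ᵐ A ∂randomOracle, ∃ L M : Set (List Bool),
        L ⊆ zeros ∧ M ⊆ zeros ∧ Disjoint L M ∧ IsP (O A) (L ∪ M) ∧
        InNTimePow (fun n => 2 ^ (n + 1)) (O A) Lᶜ ∧ InNTimePow (fun n => 2 ^ (n + 1)) (O A) M ∧
        Immune (InNTimePow (fun n => 2 ^ (n + 1)) (O A)) L ∧
        Immune (InIPPow (fun n => 2 ^ (n + 1)) (O A)) L ∧
        Immune (fun T => InNTimePow (fun n => 2 ^ (n + 1)) (O A) Tᶜ) M ∧
        Immune (fun T => InIPPow (fun n => 2 ^ (n + 1)) (O A) Tᶜ) M := by
  obtain ⟨O, h1, h2⟩ := Pool.Agent.J6H20.IM.main α hα hα' C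
  refine ⟨O, h1, ?_⟩
  filter_upwards [h2] with A hA
  obtain ⟨-, L, M, h3, h4, h5, h6, h7, h8, h9, h10⟩ := hA
  exact ⟨L, M, h3, h4, h5, h6, h7, h8, h9.mono fun T => ip_of_n, h9,
    h10.mono fun T => ip_of_n, h10⟩

end Pool.Agent.Results.MP_64fb07_lc.ImmuneNE
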